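import Pool.Agent.helper22.GS.Spec

/-! # Project gs (MP_561ff4_al): module WT (Witt's theorem for pairs of orthogonal vectors) -/

set_option autoImplicit false

namespace Pool.Agent.GS

open Module

theorem WT_one {F V : Type} [Field F] [AddCommGroup V] [Module F V]
    {B : LinearMap.BilinForm F V} (hB : Alt B) {v v' x : V} (h : B v v' ≠ 0)
    (hx : B x v = B x v') : ∃ g ∈ SpG B, g v = v' ∧ g x = x := by
  refine ⟨tv B (v' - v) (B v v')⁻¹, tv_mem hB _ _, ?_, ?_⟩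
  · rw [tv_apply hB, map_sub, hB.alt, sub_zero, inv_mul_cancel₀ h, one_smul,
      add_sub_cancel]
  · rw [tv_apply hB, map_sub, hx, sub_self, mul_zero, zero_smul, add_zero]

theorem WT_two {F V : Type} [Field F] [AddCommGroup V] [Module F V]
    {B : LinearMap.BilinForm F V} (hB : Alt B) {v v' x u : V} (h1 : B v u ≠ 0)
    (h2 : B v' u ≠ 0) (hx1 : B x v = B x u) (hx2 : B x v' = B x u) :
    ∃ g ∈ SpG B, g v = v' ∧ g x = x := by
  obtain ⟨g1, hg1, ha, hb⟩ := WT_one hB h1 hx1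
  have h2' : B u v' ≠ 0 := by
    rw [hB.neg]
    exact neg_ne_zero.mpr h2
  obtain ⟨g2, hg2, hc, hd⟩ := WT_one hB h2' hx2.symm
  refine ⟨g2 * g1, (SpG B).mul_mem hg2 hg1, ?_, ?_⟩
  · rw [Equiv.Perm.mul_apply, ha, hc]
  · rw [Equiv.Perm.mul_apply, hb, hd]

theorem WT_ex {F V : Type} [Field F] [AddCommGroup V] [Module F V]
    {B : LinearMap.BilinForm F V} {v v' u1 u2 x : V} (h1 : B v u1 ≠ 0) (h2 : B v' u2 ≠ 0)
    (hx1 : B x u1 = 0) (hx2 : B x u2 = 0) : ∃ u, B v u ≠ 0 ∧ B v' u ≠ 0 ∧ B x u = 0 := by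
  by_cases h3 : B v' u1 = 0
  · by_cases h4 : B v u2 = 0
    · refine ⟨u1 + u2, ?_, ?_, ?_⟩
      · rw [map_add, h4, add_zero]
        exact h1
      · rw [map_add, h3, zero_add]
        exact h2
      · rw [map_add, hx1, hx2, add_zero]
    · exact ⟨u2, h4, h2, hx2⟩
  · exact ⟨u1, h1, h3, hx1⟩

theorem WT (hDU : DU_stmt) : WT_stmt := by
  intro F V _ _ _ _ B hB v w v' w' hvw hvw' h0 h0'
  -- Step 1
  have hv : v ≠ 0 := hvw.ne_zero 0
  have hv' : v' ≠ 0 := hvw'.ne_zero 0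
  have hex : ∀ z : V, z ≠ 0 → ∃ u, B z u ≠ 0 := by
    intro z hz
    by_contra hcon
    push Not at hcon
    exact hz (hB.nd z hcon)
  obtain ⟨u1, hu1⟩ := hex v hv
  obtain ⟨u2, hu2⟩ := hex v' hv'
  obtain ⟨u, hu3, hu4, -⟩ := WT_ex (x := 0) hu1 hu2 (by simp) (by simp)
  obtain ⟨g1, hg1, hg1v, -⟩ := WT_two hB (x := 0) hu3 hu4 (by simp) (by simp)
  -- Step 2
  have hlin := hg1.1
  have hg0 : g1 0 = 0 := by
    have h := hlin.2 0 0
    rw [zero_smul, zero_smul] at h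
    exact h
  have hi1 : LinearIndependent F ![v', g1 w] := by
    rw [LinearIndependent.pair_iff] at hvw ⊢
    intro s t hst
    rw [← hg1v, ← hlin.2, ← hlin.2, ← hlin.1] at hst
    exact hvw s t (g1.injective (by rw [hst, hg0]))
  have h5 : B v' (g1 w) = 0 := by
    rw [← hg1v, hg1.2, h0]
  obtain ⟨a, ha⟩ := hDU B hB ![v', g1 w] hi1 ![0, 1]
  obtain ⟨b, hb⟩ := hDU B hB ![v', w'] hvw' ![0, 1]
  have ha0 : B v' a = 0 := by simpa using ha 0
  have ha1 : B (g1 w) a = 1 := by simpa using ha 1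
  have hb0 : B v' b = 0 := by simpa using hb 0
  have hb1 : B w' b = 1 := by simpa using hb 1
  obtain ⟨c, hc1, hc2, hc3⟩ := WT_ex (v := g1 w) (v' := w') (x := v')
    (by rw [ha1]; exact one_ne_zero) (by rw [hb1]; exact one_ne_zero) ha0 hb0
  obtain ⟨g2, hg2, hg2w, hg2v⟩ := WT_two hB (x := v') hc1 hc2 (by rw [h5, hc3])
    (by rw [h0', hc3])
  refine ⟨g2 * g1, (SpG B).mul_mem hg2 hg1, ?_, ?_⟩
  · rw [Equiv.Perm.mul_apply, hg1v, hg2v]
  · rw [Equiv.Perm.mul_apply, hg2w]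

end Pool.Agent.GS
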